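import Pool.Agent.Q127.KI.Stm

/-!
# Project KI (helper127): the topological entropy of a system which contains the subshift is positive
-/

set_option autoImplicit false

open MeasureTheory Filter Topology

namespace Pool.Agent.Q44.KI

open Pool.Agent.Q127.KI

theorem ent (h1 : S_grw) (h2 : S_inj) (h3 : S_app) (h4 : S_cls) (h5 : S_nem) (h6 : S_inv) :
    S_ent := by
  classical
  intro M _ F Φ hΦ hinj hF
  have hcl : IsClosed Pool.Agent.Q127.KI.Sub := isClosed_iInter h4
  have htr : ∀ w ∈ Pool.Agent.Q127.KI.Sub, ∀ a : ℤ, tr a w ∈ Pool.Agent.Q127.KI.Sub := by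
    intro w hw a
    unfold Pool.Agent.Q127.KI.Sub at hw ⊢
    rw [Set.mem_iInter] at hw ⊢
    exact fun k => h6 k a w (hw k)
  have hiter : ∀ w ∈ Pool.Agent.Q127.KI.Sub, ∀ i : ℕ, F^[i] (Φ w) = Φ (tr (i : ℤ) w) := by
    intro w hw i
    induction i with
    | zero =>
      rw [Function.iterate_zero, id]
      congr 1
      funext j
      simp [tr]
    | succ i ih =>
      rw [Function.iterate_succ_apply', ih, hF _ (htr w hw _)]
      congr 1
      funext j
      unfold sh tr
      congr 1
      push_cast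
      ring
  have hd : ∃ δ : ℝ, 0 < δ ∧ ∀ w ∈ Pool.Agent.Q127.KI.Sub, ∀ w' ∈ Pool.Agent.Q127.KI.Sub, w 0 ≠ w' 0 → δ ≤ dist (Φ w) (Φ w') := by
    have hc : ∀ b : Bool, IsCompact (Φ '' (Pool.Agent.Q127.KI.Sub ∩ {w | w 0 = b})) := by
      intro b
      refine (IsClosed.isCompact ?_).image hΦ
      exact hcl.inter (isClosed_eq (continuous_apply 0) continuous_const)
    have hdis : Disjoint (Φ '' (Pool.Agent.Q127.KI.Sub ∩ {w | w 0 = true})) (Φ '' (Pool.Agent.Q127.KI.Sub ∩ {w | w 0 = false})) := by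
      rw [Set.disjoint_left]
      rintro _ ⟨w, ⟨-, hw⟩, rfl⟩ ⟨w', ⟨-, hw'⟩, h⟩
      rw [hinj h] at hw'
      have e1 : w 0 = true := hw
      have e2 : w 0 = false := hw'
      rw [e1] at e2
      exact absurd e2 (by decide)
    obtain ⟨r, hr, h⟩ := Metric.exists_pos_forall_lt_edist (hc true) (hc false).isClosed hdis
    have h' : ∀ w ∈ Pool.Agent.Q127.KI.Sub, ∀ w' ∈ Pool.Agent.Q127.KI.Sub, w 0 = true → w' 0 = false → (r : ℝ) ≤ dist (Φ w) (Φ w') := by
      intro w hw w' hw' e e'
      have := h _ ⟨w, ⟨hw, e⟩, rfl⟩ _ ⟨w', ⟨hw', e'⟩, rfl⟩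
      rw [edist_nndist] at this
      exact_mod_cast this.le
    refine ⟨r, by exact_mod_cast hr, ?_⟩
    intro w hw w' hw' hne
    rcases Bool.eq_false_or_eq_true (w 0) with e | e
    · rcases Bool.eq_false_or_eq_true (w' 0) with e' | e'
      · exact absurd (e.trans e'.symm) hne
      · exact h' w hw w' hw' e e'
    · rcases Bool.eq_false_or_eq_true (w' 0) with e' | e'
      · rw [dist_comm]
        exact h' w' hw' w hw e' e
      · exact absurd (e.trans e'.symm) hne
  obtain ⟨δ, hδ, hsep0⟩ := hd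
  obtain ⟨w, hw⟩ := h5
  set U : SetRel M M := {p | dist p.1 p.2 < δ / 2} with hU
  have hUu : U ∈ uniformity M := Metric.dist_mem_uniformity (by linarith)
  have key : ∀ k : ℕ, ((N k : ℕ) : ℕ∞) ≤ Dynamics.netMaxcard F Set.univ U (L k) := by
    intro k
    choose a ha using h3 w hw k
    have hsep : ∀ s s' : Fin (N k), s ≠ s' → ∃ i < L k,
        δ ≤ dist (F^[i] (Φ (tr (a s) w))) (F^[i] (Φ (tr (a s') w))) := by
      intro s s' hne
      have hx : ∃ i : ℕ, i < L k ∧ ex k s i ≠ ex k s' i := by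
        by_contra hcon
        push Not at hcon
        exact hne (h2 k s s' hcon)
      obtain ⟨i, hi, hne'⟩ := hx
      refine ⟨i, hi, ?_⟩
      rw [hiter _ (htr w hw _), hiter _ (htr w hw _)]
      refine hsep0 _ (htr _ (htr w hw _) _) _ (htr _ (htr w hw _) _) ?_
      have e1 : tr (i : ℤ) (tr (a s) w) 0 = ex k s i := by
        rw [← ha s i hi]
        unfold tr
        congr 1
        ring
      have e2 : tr (i : ℤ) (tr (a s') w) 0 = ex k s' i := by
        rw [← ha s' i hi]
        unfold tr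
        congr 1
        ring
      rw [e1, e2]
      exact hne'
    have hinj' : Function.Injective (fun s : Fin (N k) => Φ (tr (a s) w)) := by
      intro s s' h
      by_contra hne
      obtain ⟨i, _, hi⟩ := hsep s s' hne
      simp only at h
      rw [h, dist_self] at hi
      linarith
    set S : Finset M := Finset.univ.image (fun s : Fin (N k) => Φ (tr (a s) w)) with hS
    have hcs : S.card = N k := by
      rw [hS, Finset.card_image_of_injective _ hinj', Finset.card_univ, Fintype.card_fin]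
    have hnet : Dynamics.IsDynNetIn F Set.univ U (L k) (S : Set M) := by
      refine ⟨Set.subset_univ _, ?_⟩
      rintro P hP P' hP' hne
      rw [Finset.mem_coe, hS, Finset.mem_image] at hP hP'
      obtain ⟨s, -, rfl⟩ := hP
      obtain ⟨s', -, rfl⟩ := hP'
      have hss : s ≠ s' := fun h => hne (by rw [h])
      obtain ⟨i, hin, hi⟩ := hsep s s' hss
      simp only [Function.onFun]
      rw [Set.disjoint_left]
      intro z hz hz'
      rw [Dynamics.mem_ball_dynEntourage] at hz hz'
      have h1 : dist (F^[i] (Φ (tr (a s) w))) (F^[i] z) < δ / 2 := hz i hin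
      have h2 : dist (F^[i] (Φ (tr (a s') w))) (F^[i] z) < δ / 2 := hz' i hin
      have h3 := dist_triangle_right (F^[i] (Φ (tr (a s) w))) (F^[i] (Φ (tr (a s') w))) (F^[i] z)
      linarith
    rw [← hcs]
    exact hnet.card_le_netMaxcard
  have hlt : Tendsto L atTop atTop :=
    tendsto_atTop_mono (fun k => (Nat.lt_two_pow_self (n := k)).le.trans (h1.2 k)) tendsto_id
  have h1' : ((1 / 8 : ℝ) : EReal) ≤ Dynamics.netEntropyEntourage F Set.univ U := by
    unfold Dynamics.netEntropyEntourage
    refine Frequently.le_expGrowthSup ?_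
    refine hlt.frequently (Frequently.of_forall fun k => ?_)
    have h2 : EReal.exp (((1 / 8 : ℝ) : EReal) * ((L k : ℕ) : EReal)) =
        ENNReal.ofReal (Real.exp ((L k : ℝ) / 8)) := by
      have : (((1 / 8 : ℝ) : EReal) * ((L k : ℕ) : EReal)) = (((L k : ℝ) / 8 : ℝ) : EReal) := by
        rw [show ((L k : ℝ) / 8 : ℝ) = 1 / 8 * (L k : ℝ) by ring]
        push_cast
        rfl
      rw [this, EReal.exp_coe]
    rw [h2]
    calc ENNReal.ofReal (Real.exp ((L k : ℝ) / 8)) ≤ ENNReal.ofReal ((N k : ℕ) : ℝ) :=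
          ENNReal.ofReal_le_ofReal (h1.1 k)
      _ = (((N k : ℕ) : ℕ∞) : ENNReal) := by
          rw [ENNReal.ofReal_natCast]; rfl
      _ ≤ _ := by exact_mod_cast key k
  have h2' := Dynamics.netEntropyEntourage_le_coverEntropy (T := F) (F := Set.univ) hUu
  have h3' : (0 : EReal) < ((1 / 8 : ℝ) : EReal) := by
    exact_mod_cast (by norm_num : (0:ℝ) < 1 / 8)
  exact lt_of_lt_of_le h3' (h1'.trans h2')

end Pool.Agent.Q44.KI
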